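import Pool.Agent.Y485.HS.Stm

/-!
Project HS: the local theorem.
-/

set_option autoImplicit false

open MeasureTheory Set Metric Filter Topology
open scoped ENNReal NNReal

namespace Pool.Agent.Y485.HS

/-- restriction of a local action to a subgroup -/
theorem LocAct.restrict {n : ℕ} {H : Type} [Group H] [TopologicalSpace H] {T : H → E n → E n}
    (hT : LocAct n H T) (K : Subgroup H) : LocAct n K (fun k : K => T (k : H)) where
  cont := by
    have h := hT.cont
    have hc : Continuous (fun q : K × E n => (((q.1 : K) : H), q.2)) := by fun_prop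
    refine (h.comp hc.continuousOn ?_)
    rintro ⟨k, x⟩ ⟨-, hx⟩
    exact ⟨mem_univ _, hx⟩
  one := fun x hx => by simpa using hT.one x hx
  mul := fun h k x hx hk => by simpa using hT.mul (h : H) (k : H) x hx hk
  disp := fun h x hx => hT.disp (h : H) x hx

/-- continuity of one orbit map -/
theorem LocAct.cont_left {n : ℕ} {H : Type} [Group H] [TopologicalSpace H] {T : H → E n → E n}
    (hT : LocAct n H T) {x : E n} (hx : x ∈ BB n) : Continuous (fun h => T h x) := by
  have hc : Continuous (fun h : H => (h, x)) := by fun_prop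
  have := hT.cont.comp_continuous hc (fun h => ⟨mem_univ _, hx⟩)
  exact this

/-- continuity of one map -/
theorem LocAct.cont_right {n : ℕ} {H : Type} [Group H] [TopologicalSpace H] {T : H → E n → E n}
    (hT : LocAct n H T) (h : H) : ContinuousOn (T h) (BB n) := by
  have hc : Continuous (fun x : E n => (h, x)) := by fun_prop
  exact hT.cont.comp hc.continuousOn (fun x hx => ⟨mem_univ _, hx⟩)

theorem LocAct.inv {n : ℕ} {H : Type} [Group H] [TopologicalSpace H] {T : H → E n → E n}
    (hT : LocAct n H T) (h : H) {x : E n} (hx : x ∈ BB n) (hx' : T h x ∈ BB n) :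
    T h⁻¹ (T h x) = x := by
  rw [← hT.mul _ _ x hx hx', inv_mul_cancel, hT.one x hx]

theorem mem_BB {n : ℕ} {x : E n} : x ∈ BB n ↔ ‖x‖ ≤ 4 := by
  simp [BB]

theorem norm_T_le {n : ℕ} {H : Type} [Group H] [TopologicalSpace H] {T : H → E n → E n}
    (hT : LocAct n H T) (h : H) {x : E n} (hx : x ∈ BB n) : ‖T h x‖ ≤ ‖x‖ + 1 / 4 := by
  have := hT.disp h x hx
  rw [dist_eq_norm] at this
  calc ‖T h x‖ = ‖x + (T h x - x)‖ := by congr 1; abel
    _ ≤ ‖x‖ + ‖T h x - x‖ := norm_add_le _ _
    _ ≤ _ := by linarith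

theorem loc (hDS : S_DS) (hAVG : S_AVG) (hCH : S_CHAIN) (hCO : S_COUNT) (hSEP : S_SEP) :
    S_LOC := by
  intro p hp n hn H _ _ _ _ _ T hT hfin h0 K m hKc hKp hKm
  have hn1 : 1 ≤ n := by omega
  have hKcomp : CompactSpace K := isCompact_iff_compactSpace.1 hKc.isCompact
  let _ : MeasurableSpace K := borel K
  have _ : BorelSpace K := ⟨rfl⟩
  let μ : Measure K := Measure.haarMeasure ⊤
  have hμ1 : IsProbabilityMeasure μ := ⟨by
    have := Measure.haarMeasure_self (K₀ := (⊤ : TopologicalSpace.PositiveCompacts K))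
    simpa using this⟩
  have hTK := hT.restrict K
  -- the averaged maps
  let S : K → E n → E n := fun k x => T (h0 * ((k : H))⁻¹) x
  have hScont : ContinuousOn (fun q : K × E n => S q.1 q.2) (univ ×ˢ BB n) := by
    have hc : Continuous (fun q : K × E n => (h0 * (((q.1 : K) : H))⁻¹, q.2)) := by fun_prop
    refine hT.cont.comp hc.continuousOn ?_
    rintro ⟨k, x⟩ ⟨-, hx⟩
    exact ⟨mem_univ _, hx⟩
  have hSm : ∀ k, SobOn m (S k) := fun k => hKm _ (K.inv_mem k.2)
  obtain ⟨hFs, hFc⟩ := hAVG n hn K μ S hScont m hSm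
  set F : E n → E n := fun x => ∫ k, S k x ∂μ with hF
  obtain ⟨g, hgm, hgh, hgi⟩ := hFs
  have hSc1 : ∀ x ∈ BB n, Continuous (fun k => S k x) := by
    intro x hx
    have hc : Continuous (fun k : K => (k, x)) := by fun_prop
    exact hScont.comp_continuous hc (fun k => ⟨mem_univ _, hx⟩)
  have hSint : ∀ x ∈ BB n, Integrable (fun k => S k x) μ := fun x hx =>
    (hSc1 x hx).integrable_of_hasCompactSupport (HasCompactSupport.of_compactSpace _)
  have hdisp : ∀ x ∈ BB n, dist (F x) x ≤ 1 / 4 := by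
    intro x hx
    have h1 : F x - x = ∫ k, (S k x - x) ∂μ := by
      rw [integral_sub (hSint x hx) (integrable_const _)]
      simp [hF]
    rw [dist_eq_norm, h1]
    have h2 := norm_integral_le_of_norm_le_const (μ := μ) (f := fun k => S k x - x) (C := 1 / 4)
      (Eventually.of_forall fun k => by
        have := hT.disp (h0 * ((k : H))⁻¹) x hx
        rwa [dist_eq_norm] at this)
    simpa using h2
  have hNear : Near F g := ⟨hFc, hdisp, hgm, hgh, lt_of_le_of_lt hgi (by simp)⟩
  have hinv : ∀ k : K, ∀ x ∈ BB n, T (k : H) x ∈ BB n → F (T (k : H) x) = F x := by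
    intro k x hx hkx
    have h1 : ∀ k' : K, S k' (T (k : H) x) = S (k⁻¹ * k') x := by
      intro k'
      show T (h0 * ((k' : H))⁻¹) (T (k : H) x) = T (h0 * (((k⁻¹ * k' : K) : H))⁻¹) x
      rw [← hT.mul _ _ x hx hkx]
      congr 1
      simp [mul_assoc]
    show ∫ k', S k' (T (k : H) x) ∂μ = ∫ k', S k' x ∂μ
    simp_rw [h1]
    exact integral_mul_left_eq_self (fun k' => S k' x) k⁻¹
  obtain ⟨D, hDer, hP⟩ := hDS n hn1 F g hNear
  obtain ⟨Γ, hΓc, hΓd⟩ := hSEP n K (fun k : K => T (k : H)) hTK.cont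
  -- null sets
  let M : K → Set (E n) := fun γ => {x | x ∈ ball 0 2 ∧ ADer g F x (D x) ∧ (D x).det ≠ 0 ∧
    ¬ (ADer g F (T (γ : H) x) (D (T (γ : H) x)) ∧ 0 < (D x).det * (D (T (γ : H) x)).det)}
  have hM : ∀ γ : K, volume (M γ) = 0 := fun γ =>
    (hCH n hn1 H T hT hfin F g D hNear hDer (γ : H) (hinv γ)).2
  have hN0 : ∀ (γ : K) (N : Set (E n)), volume N = 0 →
      volume {x | x ∈ ball 0 2 ∧ T (γ : H) x ∈ N} = 0 := fun γ =>
    (hCH n hn1 H T hT hfin F g D hNear hDer (γ : H) (hinv γ)).1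
  let N1 : Set (E n) := ⋃ γ ∈ (Γ : Set K), M γ
  have hN1 : volume N1 = 0 := (measure_biUnion_null_iff hΓc).2 fun γ _ => hM γ
  let N2 : Set (E n) := N1 ∪ ⋃ γ ∈ (Γ : Set K), {x | x ∈ ball 0 2 ∧ T (γ : H) x ∈ N1}
  have hN2 : volume N2 = 0 := by
    refine measure_union_null hN1 ((measure_biUnion_null_iff hΓc).2 fun γ _ => hN0 γ N1 hN1)
  -- almost every point is the image of a fixed point
  have hfix : ∀ᵐ y ∂(volume.restrict (ball (0 : E n) 1)),
      ∃ x, ‖x‖ ≤ 3 ∧ (∀ k : K, T (k : H) x = x) ∧ T h0 x = y := by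
    have h12 : ball (0 : E n) 1 ⊆ ball 0 2 := ball_subset_ball (by norm_num)
    have hPy := ae_restrict_of_ae_restrict_of_subset h12 (hP N2 hN2)
    filter_upwards [hPy, ae_restrict_mem measurableSet_ball] with y hy hy1
    obtain ⟨P, hPm, hPs⟩ := hy
    by_contra hcon
    have hy1' : ‖y‖ < 1 := by simpa using hy1
    have hPn : ∀ x ∈ P, ‖x‖ < 5 / 4 := by
      intro x hx
      obtain ⟨hx3, -, -, -, hFx⟩ := (hPm x).1 hx
      have hx3' : ‖x‖ < 3 := by simpa using hx3
      have hxB : x ∈ BB n := mem_BB.2 (by linarith)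
      have := hdisp x hxB
      rw [hFx, dist_eq_norm] at this
      calc ‖x‖ = ‖y - (y - x)‖ := by congr 1; abel
        _ ≤ ‖y‖ + ‖y - x‖ := norm_sub_le _ _
        _ < _ := by linarith
    have hPB : ∀ x ∈ P, x ∈ BB n := fun x hx => mem_BB.2 (by have := hPn x hx; linarith)
    have hPinv : ∀ γ ∈ (Γ : Set K), ∀ x ∈ P, T (γ : H) x ∈ P ∧
        ((SignType.sign (D (T (γ : H) x)).det : SignType) : ℤ) =
          ((SignType.sign (D x).det : SignType) : ℤ) := by
      intro γ hγ x hx
      obtain ⟨hx3, hxN, hxA, hxd, hFx⟩ := (hPm x).1 hx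
      have hn5 := hPn x hx
      have hTn := norm_T_le hT (γ : H) (hPB x hx)
      have hx2 : x ∈ ball (0 : E n) 2 := by simp; linarith
      have hTB : T (γ : H) x ∈ BB n := mem_BB.2 (by linarith)
      have hxM : x ∉ M γ := fun h => hxN (Or.inl (mem_biUnion hγ h))
      have hgood : ADer g F (T (γ : H) x) (D (T (γ : H) x)) ∧
          0 < (D x).det * (D (T (γ : H) x)).det := by
        by_contra hbad
        exact hxM ⟨hx2, hxA, hxd, hbad⟩
      have hd' : (D (T (γ : H) x)).det ≠ 0 := by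
        intro h; rw [h, mul_zero] at hgood; exact lt_irrefl _ hgood.2
      refine ⟨(hPm _).2 ⟨?_, ?_, hgood.1, hd', ?_⟩, ?_⟩
      · simp; linarith
      · rintro (h | h)
        · exact hxN (Or.inr (mem_biUnion hγ ⟨hx2, h⟩))
        · obtain ⟨γ', hγ', h2⟩ := mem_iUnion₂.1 h
          have h3 : T ((γ' * γ : K) : H) x ∈ N1 := by
            have := hT.mul (γ' : H) (γ : H) x (hPB x hx) hTB
            rw [Subgroup.coe_mul, this]
            exact h2.2
          exact hxN (Or.inr (mem_biUnion (Γ.mul_mem hγ' hγ) ⟨hx2, h3⟩))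
      · rw [hinv γ x (hPB x hx) hTB, hFx]
      · rcases lt_or_gt_of_ne hxd with h | h
        · have h' : (D (T (γ : H) x)).det < 0 := by
            by_contra h2
            push Not at h2
            have := mul_nonpos_of_nonpos_of_nonneg h.le h2
            linarith [hgood.2]
          rw [sign_neg h, sign_neg h']
        · have h' : 0 < (D (T (γ : H) x)).det := (pos_iff_pos_of_mul_pos hgood.2).1 h
          rw [sign_pos h, sign_pos h']
    have hdvd := hCO p hp n K (fun k : K => T (k : H)) hKp hTK (Γ : Set K)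
      (fun k ε hε => hΓd k ε hε) P (fun x => ((SignType.sign (D x).det : SignType) : ℤ))
      (fun x hx => by have := hPn x hx; linarith) hPinv ?_
    · rw [hPs] at hdvd
      have h1 := Int.natCast_dvd_natCast.1 (by simpa using hdvd : (p : ℤ) ∣ ((1 : ℕ) : ℤ))
      exact hp.one_lt.ne' (Nat.dvd_one.1 h1)
    · intro x hx
      by_contra hall
      push Not at hall
      apply hcon
      refine ⟨x, by have := hPn x hx; linarith, hall, ?_⟩
      obtain ⟨-, -, -, -, hFx⟩ := (hPm x).1 hx
      rw [← hFx]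
      have hxB := hPB x hx
      have h1 : ∀ k : K, S k x = T h0 x := by
        intro k
        have h2 : T (((k⁻¹ : K)) : H) x = x := hall k⁻¹
        have h3 := hT.mul h0 (((k⁻¹ : K)) : H) x hxB (by rw [h2]; exact hxB)
        show T (h0 * ((k : H))⁻¹) x = T h0 x
        rw [h2] at h3
        simpa using h3
      show T h0 x = ∫ k, S k x ∂μ
      simp_rw [h1]
      simp
  -- the image of the fixed points is closed
  let C : Set (E n) := {x | x ∈ closedBall (0 : E n) 3 ∧ ∀ k : K, T (k : H) x = x}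
  have hCB : closedBall (0 : E n) 3 ⊆ BB n := closedBall_subset_closedBall (by norm_num)
  have hCc : IsCompact C := by
    have h1 : IsClosed C := by
      have h2 : C = ⋂ k : K, {x | x ∈ closedBall (0 : E n) 3 ∧ T (k : H) x = x} := by
        ext x
        simp only [C, Set.mem_ofPred_eq, mem_iInter]
        constructor
        · rintro ⟨h, h'⟩ k; exact ⟨h, h' k⟩
        · intro h; exact ⟨(h 1).1, fun k => (h k).2⟩
      rw [h2]
      refine isClosed_iInter fun k => ?_
      have h3 : ContinuousOn (fun x => T (k : H) x - x) (closedBall (0 : E n) 3) :=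
        ((hT.cont_right (k : H)).mono hCB).sub continuousOn_id
      have h4 := h3.preimage_isClosed_of_isClosed isClosed_closedBall (isClosed_singleton (x := (0 : E n)))
      have h5 : {x | x ∈ closedBall (0 : E n) 3 ∧ T (k : H) x = x} =
          closedBall (0 : E n) 3 ∩ (fun x => T (k : H) x - x) ⁻¹' {0} := by
        ext x
        simp [sub_eq_zero]
      rw [h5]
      exact h4
    exact (isCompact_closedBall (0 : E n) 3).of_isClosed_subset h1 (fun x hx => hx.1)
  have himg : IsClosed (T h0 '' C) :=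
    (hCc.image_of_continuousOn ((hT.cont_right h0).mono fun x hx => hCB hx.1)).isClosed
  have hall : ball (0 : E n) 1 ⊆ T h0 '' C := by
    by_contra hne
    rw [not_subset] at hne
    obtain ⟨y, hy1, hy2⟩ := hne
    have hop : IsOpen (ball (0 : E n) 1 ∩ (T h0 '' C)ᶜ) := isOpen_ball.inter himg.isOpen_compl
    have hpos := hop.measure_pos volume ⟨y, hy1, hy2⟩
    have hz : volume (ball (0 : E n) 1 ∩ (T h0 '' C)ᶜ) = 0 := by
      rw [ae_restrict_iff' measurableSet_ball] at hfix
      refine measure_mono_null ?_ (ae_iff.1 hfix)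
      rintro z ⟨hz1, hz2⟩ hz3
      obtain ⟨x, hx3, hxk, hxy⟩ := hz3 hz1
      exact hz2 ⟨x, ⟨by simpa using hx3, hxk⟩, hxy⟩
    rw [hz] at hpos
    exact lt_irrefl _ hpos
  intro k hk w hw
  have hwn : ‖w‖ < 1 / 2 := by simpa using hw
  have hwB : w ∈ BB n := mem_BB.2 (by linarith)
  have hTw := norm_T_le hT h0 hwB
  obtain ⟨x, ⟨hx3, hxk⟩, hxw⟩ := hall (show T h0 w ∈ ball (0 : E n) 1 by simp; linarith)
  have hTwB : T h0 w ∈ BB n := mem_BB.2 (by linarith)
  have hxB : x ∈ BB n := hCB hx3
  have e1 := hT.inv h0 hwB hTwB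
  have e2 := hT.inv h0 hxB (by rw [hxw]; exact hTwB)
  rw [hxw, e1] at e2
  rw [e2]
  exact hxk ⟨k, hk⟩

end Pool.Agent.Y485.HS
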