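import Pool.Agent.Y485.HS.Lie
import Pool.Agent.Y438.HS.DL
import Pool.Agent.Y988.HS.Ud
import Pool.Agent.Y620.HS.DER
import Pool.Agent.Y356.HS.Area
import Pool.Agent.Y968.HS.Lim
import Pool.Agent.Y620.HS.DS
import Pool.Agent.Y689.HS.CL
import Pool.Agent.Y563.HS.Avg
import Pool.Agent.Y475.HS.Baire
import Pool.Agent.Y232.HS.Chain
import Pool.Agent.Z864.HS.Count
import Pool.Agent.Y858.HS.Tr
import Pool.Agent.Y658.HS.Start
import Pool.Agent.Y215.HS.Syl
import Pool.Agent.Y665.HS.Coord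

/-!
Project HS: assembly of the parts.
-/

set_option autoImplicit false

open Filter Topology

namespace Pool.Agent.Y485.HS

theorem ds : S_DS :=
  Pool.Agent.Y620.HS.ds (Pool.Agent.Y620.HS.der Pool.Agent.Y988.HS.ud) Pool.Agent.Y356.HS.area
    (Pool.Agent.Y968.HS.lim Pool.Agent.Y438.HS.dl Pool.Agent.Y988.HS.ud)

theorem loc' : S_LOC :=
  loc ds (Pool.Agent.Y563.HS.Av.avg Pool.Agent.Y689.HS.CL.cl)
    (Pool.Agent.Y232.HS.chain ds Pool.Agent.Y988.HS.ud) Pool.Agent.Z864.HS.count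
    Pool.Agent.Y475.HS.sep

/-- No small subgroups. -/
theorem nss_final {n : ℕ} (hn : 2 ≤ n) {X : Type} [MetricSpace X] [MeasurableSpace X]
    [BorelSpace X]
    {G : Type} [Group G] [TopologicalSpace G] [IsTopologicalGroup G] [LocallyCompactSpace G]
    [MulAction G X] [ContinuousSMul G X] [FaithfulSMul G X]
    (hdense : Dense (Reg n X)) (hconn : IsPreconnected (Reg n X))
    (hsob : ∀ᶠ g in 𝓝 (1 : G), Sob n (fun x : X => g • x)) :
    T2Space G ∧ Pool.Agent.W660.GY.NSS G :=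
  nss_main loc' Pool.Agent.Y858.HS.tr Pool.Agent.Y658.HS.start
    (Pool.Agent.Y475.HS.baire Pool.Agent.Y689.HS.CL.cl) Pool.Agent.Y215.HS.syl
    Pool.Agent.Y665.HS.coord hn hdense hconn hsob

end Pool.Agent.Y485.HS
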