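import Pool.Agent.Y485.HS.Final
import Pool.Agent.Y286.HS.LGB
import Pool.Agent.Y328.HS.Lga

/-!
Project HS: the acting group is a Lie group.
-/

set_option autoImplicit false

open Filter Topology

namespace Pool.Agent.Y485.HS

/-- The Hilbert-Smith conjecture for Sobolev homeomorphisms. -/
theorem lie_final {n : ℕ} (hn : 2 ≤ n) {X : Type} [MetricSpace X] [MeasurableSpace X]
    [BorelSpace X]
    {G : Type} [Group G] [TopologicalSpace G] [IsTopologicalGroup G] [LocallyCompactSpace G]
    [MulAction G X] [ContinuousSMul G X] [FaithfulSMul G X]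
    (hdense : Dense (Reg n X)) (hconn : IsPreconnected (Reg n X))
    (hsob : ∀ᶠ g in 𝓝 (1 : G), Sob n (fun x : X => g • x)) : IsLie G := by
  obtain ⟨hT, hN⟩ := nss_final hn hdense hconn hsob
  haveI := hT
  obtain ⟨E, i1, i2, i3, ⟨C⟩⟩ := Pool.Agent.Y328.HS.lga G hN
  letI := i1
  letI := i2
  haveI := i3
  exact Pool.Agent.Y286.HS.lgb G E C

end Pool.Agent.Y485.HS
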