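import Pool.Agent.Y485.HS.Loc

/-!
Project HS: local triviality on metric spaces, Newman's theorem and the final theorem.
-/

set_option autoImplicit false

open MeasureTheory Set Metric Filter Topology
open scoped ENNReal NNReal

namespace Pool.Agent.Y485.HS

/-! ### Small facts -/

theorem ProP.of_surj {p : ℕ} {K K' : Type} [Group K] [TopologicalSpace K] [Group K']
    [TopologicalSpace K'] (h : ProP p K) (e : K →* K') (hs : Function.Surjective e)
    (hc : Continuous e) : ProP p K' := by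
  intro U hU
  obtain ⟨j, hj⟩ := h (U.comap e) (hU.preimage hc)
  exact ⟨j, by rw [← hj, Subgroup.index_comap_of_surjective U hs]⟩

theorem SobOn.mono {n m m' : ℕ} {u : E n → E n} (h : SobOn m u) (hm : m ≤ m') : SobOn m' u := by
  obtain ⟨g, h1, h2, h3⟩ := h
  exact ⟨g, h1, h2, h3.trans (by exact_mod_cast hm)⟩

theorem SobOn.congr {n m : ℕ} {u v : E n → E n} (h : SobOn m u) (huv : ∀ x ∈ BB n, u x = v x) :
    SobOn m v := by
  obtain ⟨g, h1, h2, h3⟩ := h
  refine ⟨g, h1, ?_, h3⟩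
  intro x hx y hy
  rw [← huv x hx, ← huv y hy]
  exact h2 x hx y hy

section metric
variable {n : ℕ} {X : Type} [MetricSpace X] {U : Set X} {ψ : X → E n} {L : ℝ}

theorem BiLip.inj (h : BiLip n U ψ L) {a b : X} (ha : a ∈ U) (hb : b ∈ U) (hab : ψ a = ψ b) :
    a = b := by
  have := (h.2.2 a ha b hb).2
  rw [hab, dist_self, mul_zero] at this
  exact dist_le_zero.1 this

theorem BiLip.cont (h : BiLip n U ψ L) : ContinuousOn ψ U := by
  have hl : LipschitzOnWith (Real.toNNReal L) ψ U := by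
    refine LipschitzOnWith.of_dist_le_mul fun x hx y hy => ?_
    refine ((h.2.2 x hx y hy).1).trans ?_
    exact mul_le_mul_of_nonneg_right (Real.le_coe_toNNReal L) dist_nonneg
  exact hl.continuousOn

/-- the inverse of a chart -/
noncomputable def inv' (U : Set X) (ψ : X → E n) (a0 : X) (y : E n) : X := by
  classical
  exact if h : y ∈ ψ '' U then h.choose else a0

theorem inv'_mem {a0 : X} {y : E n} (hy : y ∈ ψ '' U) : inv' U ψ a0 y ∈ U := by
  unfold inv'
  rw [dif_pos hy]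
  exact hy.choose_spec.1

theorem inv'_eq {a0 : X} {y : E n} (hy : y ∈ ψ '' U) : ψ (inv' U ψ a0 y) = y := by
  unfold inv'
  rw [dif_pos hy]
  exact hy.choose_spec.2

theorem BiLip.inv'_left (h : BiLip n U ψ L) {a0 a : X} (ha : a ∈ U) :
    inv' U ψ a0 (ψ a) = a :=
  h.inj (inv'_mem (mem_image_of_mem ψ ha)) ha (inv'_eq (mem_image_of_mem ψ ha))

theorem BiLip.inv'_cont (h : BiLip n U ψ L) (a0 : X) : ContinuousOn (inv' U ψ a0) (ψ '' U) := by
  have hl : LipschitzOnWith (Real.toNNReal L) (inv' U ψ a0) (ψ '' U) := by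
    refine LipschitzOnWith.of_dist_le_mul fun x hx y hy => ?_
    have := (h.2.2 _ (inv'_mem (a0 := a0) hx) _ (inv'_mem (a0 := a0) hy)).2
    rw [inv'_eq hx, inv'_eq hy] at this
    exact this.trans (mul_le_mul_of_nonneg_right (Real.le_coe_toNNReal L) dist_nonneg)
  exact hl.continuousOn

theorem isOpen_Reg : IsOpen (Reg n X) := by
  rw [isOpen_iff_mem_nhds]
  rintro x ⟨U, ψ, L, hx, hU⟩
  exact mem_of_superset (hU.1.mem_nhds hx) fun y hy => ⟨U, ψ, L, hy, hU⟩

end metric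

/-! ### Local triviality -/

/-- Near every regular point an open subgroup acts trivially. -/
theorem locTriv (hLOC : S_LOC) (hTR : S_TR) (hST : S_START) (hBA : S_BAIRE) (hSY : S_SYL)
    {n : ℕ} (hn : 2 ≤ n) {X : Type} [MetricSpace X] [MeasurableSpace X] [BorelSpace X]
    {H : Type} [Group H] [TopologicalSpace H] [IsTopologicalGroup H] [CompactSpace H] [T2Space H]
    [TotallyDisconnectedSpace H] [MulAction H X] [ContinuousSMul H X]
    (hsob : ∀ h : H, Sob n (fun x : X => h • x)) {x0 : X} (hx0 : x0 ∈ Reg n X) :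
    ∃ K : Subgroup H, IsOpen (K : Set H) ∧ ∀ᶠ x in 𝓝 x0, ∀ k ∈ K, k • x = x := by
  obtain ⟨U, ψ, L, H0, hU, hxU, hψ0, hball, hH0, hsmall⟩ := hST n X H x0 hx0
  have hH0c : IsClosed (H0 : Set H) := Subgroup.isClosed_of_isOpen H0 hH0
  have : CompactSpace H0 := isCompact_iff_compactSpace.1 hH0c.isCompact
  obtain ⟨T, hT, hTs, hTψ⟩ := hTR n (by omega) X H0 U ψ L hU hball
    (fun h x hx hx4 => hsmall h h.2 x hx hx4) (fun h => hsob (h : H))
  obtain ⟨h0, K, m, hKo, hKm⟩ := hBA n hn H0 T hT.cont hTs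
  have hKc : IsClosed (K : Set H0) := Subgroup.isClosed_of_isOpen K hKo
  have : CompactSpace K := isCompact_iff_compactSpace.1 hKc.isCompact
  -- the elements of `K` acting trivially on the small ball
  have hhalf : ∀ x : E n, x ∈ ball (0 : E n) (1 / 2) → x ∈ BB n := fun x hx => by
    have : ‖x‖ < 1 / 2 := by simpa using hx
    exact mem_BB.2 (by linarith)
  let D : Subgroup K :=
    { carrier := {k | ∀ x ∈ ball (0 : E n) (1 / 2), T (k : H0) x = x}
      mul_mem' := by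
        intro a b ha hb x hx
        have hxB := hhalf x hx
        have h1 := hT.mul (a : H0) (b : H0) x hxB (by rw [hb x hx]; exact hxB)
        rw [Subgroup.coe_mul, h1, hb x hx, ha x hx]
      one_mem' := by
        intro x hx
        simpa using hT.one x (hhalf x hx)
      inv_mem' := by
        intro a ha x hx
        have hxB := hhalf x hx
        have h1 := hT.inv (a : H0) hxB (by rw [ha x hx]; exact hxB)
        rw [ha x hx] at h1
        simpa using h1 }
  have hDc : IsClosed (D : Set K) := by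
    have h1 : (D : Set K) = ⋂ x ∈ ball (0 : E n) (1 / 2), {k : K | T (k : H0) x = x} := by
      ext k
      simp only [mem_iInter]
      rfl
    rw [h1]
    refine isClosed_biInter fun x hx => ?_
    have hc : Continuous (fun k : K => T (k : H0) x) :=
      (hT.cont_left (hhalf x hx)).comp continuous_subtype_val
    exact isClosed_eq hc continuous_const
  have hD : D = ⊤ := by
    refine hSY K D hDc ?_
    intro p hp P hPc hPp k hk
    let e : P →* (P.map K.subtype : Subgroup H0) := K.subtype.subgroupMap P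
    have hes : Function.Surjective e := K.subtype.subgroupMap_surjective P
    have hec : Continuous e := by
      refine Continuous.subtype_mk ?_ _
      exact continuous_subtype_val.comp continuous_subtype_val
    have hPp' := hPp.of_surj e hes hec
    have hPc' : IsClosed ((P.map K.subtype : Subgroup H0) : Set H0) := by
      rw [Subgroup.coe_map]
      exact (hKc.isClosedEmbedding_subtypeVal).isClosedMap _ hPc
    intro x hx
    refine hLOC p hp n hn H0 T hT hTs h0 (P.map K.subtype) m hPc' hPp' ?_ (k : H0)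
      ⟨k, hk, rfl⟩ x hx
    rintro q ⟨r, -, rfl⟩
    exact hKm _ r.2
  refine ⟨K.map H0.subtype, ?_, ?_⟩
  · rw [Subgroup.coe_map]
    exact hH0.isOpenEmbedding_subtypeVal.isOpenMap _ hKo
  · have hopen : IsOpen (U ∩ ψ ⁻¹' ball 0 (1 / 2)) := hU.cont.isOpen_inter_preimage hU.1 isOpen_ball
    have hmem : x0 ∈ U ∩ ψ ⁻¹' ball 0 (1 / 2) := ⟨hxU, by simp [hψ0]⟩
    filter_upwards [hopen.mem_nhds hmem] with x hx
    rintro k ⟨k', hk', rfl⟩
    have h1 : (⟨k', hk'⟩ : K) ∈ D := by rw [hD]; exact Subgroup.mem_top _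
    have h2 : T k' (ψ x) = ψ x := h1 (ψ x) hx.2
    have hx4 : ψ x ∈ closedBall (0 : E n) 4 := hhalf _ hx.2
    have h3 := hTψ k' x hx.1 hx4
    have h4 := (hsmall (k' : H) k'.2 x hx.1 hx4).1
    refine hU.inj h4 hx.1 ?_
    rw [h2] at h3
    exact h3.symm

/-! ### Newman's theorem -/

/-- A pro-`p` group which has an open subgroup acting trivially near a regular point and which
fixes open sets arbitrarily close to the point acts trivially near the point. -/
theorem newman (hLOC : S_LOC) (hTR : S_TR) (hCO : S_COORD)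
    {n : ℕ} (hn : 2 ≤ n) {X : Type} [MetricSpace X] [MeasurableSpace X] [BorelSpace X]
    {p : ℕ} (hp : p.Prime)
    {P : Type} [Group P] [TopologicalSpace P] [IsTopologicalGroup P] [CompactSpace P] [T2Space P]
    (hPp : ProP p P) [MulAction P X] [ContinuousSMul P X]
    (hsob : ∀ h : P, Sob n (fun x : X => h • x)) {x0 : X} (hx0 : x0 ∈ Reg n X)
    (K : Subgroup P) (hK : IsOpen (K : Set P)) (hKt : ∀ᶠ x in 𝓝 x0, ∀ k ∈ K, k • x = x)
    (hcl : ∀ V ∈ 𝓝 x0, ∃ a ∈ V, ∀ᶠ x in 𝓝 a, ∀ k : P, k • x = x) :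
    ∀ᶠ x in 𝓝 x0, ∀ k : P, k • x = x := by
  by_contra hcon
  obtain ⟨U, ψ, L, hxU, hU⟩ := hx0
  -- `x0` is fixed
  have hfix0 : ∀ k : P, k • x0 = x0 := by
    have h1 : IsClosed {x : X | ∀ k : P, k • x = x} := by
      have : {x : X | ∀ k : P, k • x = x} = ⋂ k : P, {x | k • x = x} := by ext; simp
      rw [this]
      exact isClosed_iInter fun k => isClosed_eq (continuous_const_smul k) continuous_id
    have h2 : x0 ∈ closure {x : X | ∀ k : P, k • x = x} := by
      rw [mem_closure_iff_nhds]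
      intro V hV
      obtain ⟨a, haV, ha⟩ := hcl V hV
      exact ⟨a, haV, ha.self_of_nhds⟩
    rw [h1.closure_eq] at h2
    exact h2
  -- a neighbourhood which stays in the chart
  have hstay : ∀ᶠ x in 𝓝 x0, ∀ k : P, k • x ∈ U := by
    have h1 : ∀ k ∈ (univ : Set P), ∀ᶠ q : X × P in 𝓝 (x0, k), q.2 • q.1 ∈ U := by
      intro k _
      have hc : Continuous (fun q : X × P => q.2 • q.1) := by fun_prop
      have hc' : ContinuousAt (fun q : X × P => q.2 • q.1) (x0, k) := hc.continuousAt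
      refine hc'.eventually_mem ?_
      show U ∈ 𝓝 (k • x0)
      rw [hfix0 k]
      exact hU.1.mem_nhds hxU
    have h2 := isCompact_univ.eventually_forall_of_forall_eventually
      (P := fun (x : X) (k : P) => k • x ∈ U) h1
    filter_upwards [h2] with x hx k using hx k (mem_univ k)
  set z : E n := ψ x0 with hz
  set θ : E n → X := inv' U ψ x0 with hθ
  have hθc : ContinuousOn θ (ψ '' U) := hU.inv'_cont x0
  have hθψ : ∀ x ∈ U, θ (ψ x) = x := fun x hx => hU.inv'_left hx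
  have hψθ : ∀ y ∈ ψ '' U, ψ (θ y) = y := fun y hy => inv'_eq hy
  have hθU : ∀ y ∈ ψ '' U, θ y ∈ U := fun y hy => inv'_mem hy
  have hzU : z ∈ ψ '' U := mem_image_of_mem ψ hxU
  have hnz : ψ '' U ∈ 𝓝 z := hU.2.1.mem_nhds hzU
  have hG : ∀ᶠ y in 𝓝 z, y ∈ ψ '' U ∧ (∀ k : P, k • θ y ∈ U) ∧ ∀ k ∈ K, k • θ y = θ y := by
    have h1 : Tendsto θ (𝓝 z) (𝓝 x0) := by
      have := (hθc z hzU).continuousAt hnz
      rw [ContinuousAt, hz, hθψ x0 hxU] at this
      exact this
    filter_upwards [hnz, h1.eventually hstay, h1.eventually hKt] with y h2 h3 h4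
    exact ⟨h2, h3, h4⟩
  obtain ⟨ρ, hρ, hρG⟩ := (nhds_basis_closedBall.mem_iff).1 hG
  have hρU : closedBall z ρ ⊆ ψ '' U := fun y hy => (hρG hy).1
  let T0 : P → E n → E n := fun k y => ψ (k • θ y)
  have hT0c : ContinuousOn (fun q : P × E n => T0 q.1 q.2) (univ ×ˢ closedBall z ρ) := by
    have h1 : ContinuousOn (fun q : P × E n => θ q.2) (univ ×ˢ closedBall z ρ) :=
      hθc.comp continuousOn_snd (fun q hq => hρU hq.2)
    have h2 : ContinuousOn (fun q : P × E n => q.1 • θ q.2) (univ ×ˢ closedBall z ρ) :=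
      continuousOn_fst.smul h1
    exact hU.cont.comp h2 (fun q hq => (hρG hq.2).2.1 q.1)
  have hT01 : ∀ x ∈ closedBall z ρ, T0 1 x = x := fun y hy => by
    show ψ ((1 : P) • θ y) = y
    rw [one_smul, hψθ y (hρU hy)]
  have hT0m : ∀ h k, ∀ x ∈ closedBall z ρ, T0 k x ∈ closedBall z ρ →
      T0 (h * k) x = T0 h (T0 k x) := by
    intro h k y hy _
    show ψ ((h * k) • θ y) = ψ (h • θ (ψ (k • θ y)))
    rw [hθψ _ ((hρG hy).2.1 k), mul_smul]
  have hV : U ∩ ψ ⁻¹' ball z ρ ∈ 𝓝 x0 :=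
    (hU.cont.isOpen_inter_preimage hU.1 isOpen_ball).mem_nhds ⟨hxU, mem_ball_self hρ⟩
  obtain ⟨a, haV, ha⟩ := hcl _ hV
  obtain ⟨x1, hx1V, hx1⟩ : ∃ x1 ∈ U ∩ ψ ⁻¹' ball z ρ, ¬ ∀ k : P, k • x1 = x1 := by
    by_contra h
    push Not at h
    exact hcon (mem_of_superset hV fun x hx => h x hx)
  push Not at hx1
  obtain ⟨k1, hk1⟩ := hx1
  have ha' : ∀ᶠ y in 𝓝 (ψ a), ∀ k, T0 k y = y := by
    have hmem : ψ '' U ∈ 𝓝 (ψ a) := hU.2.1.mem_nhds (mem_image_of_mem ψ haV.1)
    have h1 : Tendsto θ (𝓝 (ψ a)) (𝓝 a) := by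
      have := (hθc (ψ a) (mem_image_of_mem ψ haV.1)).continuousAt hmem
      rw [ContinuousAt, hθψ a haV.1] at this
      exact this
    filter_upwards [hmem, h1.eventually ha] with y hy h2 k
    show ψ (k • θ y) = y
    rw [h2 k, hψθ y hy]
  have hx1' : ∃ k, T0 k (ψ x1) ≠ ψ x1 := by
    refine ⟨k1, ?_⟩
    show ψ (k1 • θ (ψ x1)) ≠ ψ x1
    rw [hθψ x1 hx1V.1]
    intro h
    have h2 := (hρG (ball_subset_closedBall hx1V.2)).2.1 k1
    rw [hθψ x1 hx1V.1] at h2
    exact hk1 (hU.inj h2 hx1V.1 h)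
  obtain ⟨w, O, Φ, L', ⟨kw, hkw⟩, hwO, hOρ, hOo, hΦO, hΦL, hΦw, hΦB, hΦs⟩ :=
    hCO n (by omega) P T0 z ρ hρ hT0c hT01 hT0m (ψ a) haV.2 (ψ x1) hx1V.2 ha' hx1'
  have hOU : O ⊆ ψ '' U := fun y hy => hρU (ball_subset_closedBall (hOρ hy))
  -- the new chart
  let U1 : Set X := U ∩ ψ ⁻¹' O
  let ψ1 : X → E n := fun x => Φ (ψ x)
  have himg : ψ1 '' U1 = Φ '' O := by
    ext y
    constructor
    · rintro ⟨x, ⟨hx, hxO⟩, rfl⟩
      exact ⟨ψ x, hxO, rfl⟩
    · rintro ⟨v, hv, rfl⟩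
      obtain ⟨x, hx, rfl⟩ := hOU hv
      exact ⟨x, ⟨hx, hv⟩, rfl⟩
  have hU1 : BiLip n U1 ψ1 (|L| * |L'|) := by
    refine ⟨hU.cont.isOpen_inter_preimage hU.1 hOo, by rw [himg]; exact hΦO, ?_⟩
    rintro b ⟨hb, hbO⟩ c ⟨hc, hcO⟩
    have h1 := hU.2.2 b hb c hc
    have h2 := hΦL (ψ b) hbO (ψ c) hcO
    have d1 : (0 : ℝ) ≤ dist (ψ b) (ψ c) := dist_nonneg
    have d2 : (0 : ℝ) ≤ dist b c := dist_nonneg
    have d3 : (0 : ℝ) ≤ dist (Φ (ψ b)) (Φ (ψ c)) := dist_nonneg
    constructor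
    · calc dist (Φ (ψ b)) (Φ (ψ c)) ≤ L' * dist (ψ b) (ψ c) := h2.1
        _ ≤ |L'| * dist (ψ b) (ψ c) := mul_le_mul_of_nonneg_right (le_abs_self _) d1
        _ ≤ |L'| * (|L| * dist b c) := by
            refine mul_le_mul_of_nonneg_left (h1.1.trans ?_) (abs_nonneg _)
            exact mul_le_mul_of_nonneg_right (le_abs_self _) d2
        _ = |L| * |L'| * dist b c := by ring
    · calc dist b c ≤ L * dist (ψ b) (ψ c) := h1.2
        _ ≤ |L| * dist (ψ b) (ψ c) := mul_le_mul_of_nonneg_right (le_abs_self _) d1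
        _ ≤ |L| * (|L'| * dist (Φ (ψ b)) (Φ (ψ c))) := by
            refine mul_le_mul_of_nonneg_left (h2.2.trans ?_) (abs_nonneg _)
            exact mul_le_mul_of_nonneg_right (le_abs_self _) d3
        _ = |L| * |L'| * dist (Φ (ψ b)) (Φ (ψ c)) := by ring
  have hρx : ∀ x ∈ U1, (∀ k : P, k • x ∈ U) ∧ ∀ k ∈ K, k • x = x := by
    rintro x ⟨hx, hxO⟩
    have := hρG (ball_subset_closedBall (hOρ hxO))
    rw [Set.mem_ofPred_eq, hθψ x hx] at this
    exact this.2
  have hsmall1 : ∀ h : P, ∀ x ∈ U1, ψ1 x ∈ closedBall 0 4 →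
      h • x ∈ U1 ∧ dist (ψ1 (h • x)) (ψ1 x) ≤ 1 / 4 := by
    rintro h x hx hx4
    have h1 := hΦs (ψ x) hx.2 hx4 h
    have h2 : T0 h (ψ x) = ψ (h • x) := by
      show ψ (h • θ (ψ x)) = _
      rw [hθψ x hx.1]
    rw [h2] at h1
    exact ⟨⟨(hρx x hx).1 h, h1.1⟩, h1.2⟩
  obtain ⟨T1, hT1, hT1s, hT1ψ⟩ := hTR n (by omega) X P U1 ψ1 _ hU1 (by rw [himg]; exact hΦB)
    hsmall1 hsob
  -- a uniform energy bound
  have hcos : ∀ k : P, ∀ k' ∈ K, ∀ y ∈ BB n, T1 (k * k') y = T1 k y := by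
    intro k k' hk' y hy
    have hy' : y ∈ ψ1 '' U1 := by rw [himg]; exact hΦB hy
    obtain ⟨x, hx, rfl⟩ := hy'
    rw [hT1ψ _ x hx hy, hT1ψ _ x hx hy, mul_smul, (hρx x hx).2 k' hk']
  have hfinq : Finite (P ⧸ K) := Subgroup.quotient_finite_of_isOpen K hK
  have hfq : Fintype (P ⧸ K) := Fintype.ofFinite _
  choose mm hmm using hT1s
  let m : ℕ := Finset.univ.sup (fun q : P ⧸ K => mm (Quotient.out q))
  have hm : ∀ k : P, SobOn m (T1 k) := by
    intro k
    obtain ⟨h, hh⟩ := QuotientGroup.mk_out_eq_mul K k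
    have h1 := (hmm (Quotient.out (k : P ⧸ K))).mono
      (Finset.le_sup (f := fun q : P ⧸ K => mm (Quotient.out q)) (Finset.mem_univ (k : P ⧸ K)))
    refine h1.congr fun x hx => ?_
    rw [hh]
    exact hcos k h h.2 x hx
  have hPtop : ProP p (⊤ : Subgroup P) :=
    hPp.of_surj (Subgroup.topEquiv.symm : P ≃* (⊤ : Subgroup P)).toMonoidHom
      (Subgroup.topEquiv.symm : P ≃* (⊤ : Subgroup P)).surjective
      (continuous_id.subtype_mk _)
  have hfin := hLOC p hp n hn P T1 hT1 (fun h => ⟨mm h, hmm h⟩) 1 ⊤ m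
    (by simp) hPtop (fun k _ => by rw [one_mul]; exact hm k) kw (Subgroup.mem_top _) 0
    (by simp)
  obtain ⟨xw, hxw, hxww⟩ := hOU hwO
  have hxw1 : xw ∈ U1 := ⟨hxw, by rw [mem_preimage, hxww]; exact hwO⟩
  have hψ1w : ψ1 xw = 0 := by show Φ (ψ xw) = 0; rw [hxww, hΦw]
  have h1 := hT1ψ kw xw hxw1 (by rw [hψ1w]; simp)
  rw [hψ1w, hfin] at h1
  have h2 : T0 kw w = ψ (kw • xw) := by
    show ψ (kw • θ w) = _
    rw [← hxww, hθψ xw hxw]
  have h3 := (hΦs w hwO (by rw [hΦw]; simp) kw).1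
  have h4 := (hΦL _ h3 w hwO).2
  have h5 : Φ (T0 kw w) = 0 := by rw [h2]; exact h1.symm
  rw [h5, hΦw, dist_self, mul_zero] at h4
  exact hkw (dist_le_zero.1 h4)

end Pool.Agent.Y485.HS
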