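import Pool.Agent.Y485.HS.Stm
import Pool.Agent.W660.GY.Stm

/-!
Project HS, second part: from no small subgroups to Lie groups (statements).
-/

set_option autoImplicit false

open MeasureTheory Set Metric Filter Topology
open scoped ENNReal NNReal Manifold ContDiff

namespace Pool.Agent.Y485.HS

open Pool.Agent.W660.GY (NSS)

/-- A chart at the identity of exponential type: the multiplication is smooth near the origin, the
inversion and the conjugations are linear in the chart. -/
structure ExpChart (G : Type) [Group G] [TopologicalSpace G] (E : Type) [NormedAddCommGroup E]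
    [NormedSpace ℝ E] where
  κ : OpenPartialHomeomorph G E
  one_mem : (1 : G) ∈ κ.source
  map_one : κ 1 = 0
  δ : ℝ
  pos : 0 < δ
  mul : ∀ p : E × E, ‖p‖ < δ →
    ContDiffAt ℝ ∞ (fun q : E × E => κ (κ.symm q.1 * κ.symm q.2)) p
  inv : ∀ᶠ a in 𝓝 (0 : E), κ (κ.symm a)⁻¹ = -a
  Ad : G → (E →L[ℝ] E)
  cnj : ∀ g : G, ∀ᶠ a in 𝓝 (0 : E), κ (g * κ.symm a * g⁻¹) = Ad g a

/-- J18. Locally compact groups without small subgroups have a chart of exponential type. -/
def S_LGA : Prop :=
  ∀ (G : Type) [Group G] [TopologicalSpace G] [IsTopologicalGroup G] [T2Space G]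
    [LocallyCompactSpace G], NSS G →
    ∃ (E : Type) (_ : NormedAddCommGroup E) (_ : NormedSpace ℝ E),
      FiniteDimensional ℝ E ∧ Nonempty (ExpChart G E)

/-- being a Lie group -/
def IsLie (G : Type) [Group G] [TopologicalSpace G] : Prop :=
  ∃ (m : ℕ) (_ : ChartedSpace (EuclideanSpace ℝ (Fin m)) G),
    LieGroup (modelWithCornersSelf ℝ (EuclideanSpace ℝ (Fin m))) ((⊤ : ℕ∞) : WithTop ℕ∞) G

/-- J19. A group with a chart of exponential type is a Lie group. -/
def S_LGB : Prop :=
  ∀ (G : Type) [Group G] [TopologicalSpace G] [IsTopologicalGroup G] [T2Space G]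
    (E : Type) [NormedAddCommGroup E] [NormedSpace ℝ E] [FiniteDimensional ℝ E],
    ExpChart G E → IsLie G

end Pool.Agent.Y485.HS
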