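import Pool.Agent.Y485.HS.Main
import Pool.Agent.Y485.HS.Stm2
import Pool.Agent.W660.GY.Main3
import Pool.Agent.H658R3.ZM8

/-!
Project HS: from totally disconnected groups to all locally compact groups.
-/

set_option autoImplicit false

open MeasureTheory Set Metric Filter Topology
open scoped ENNReal NNReal Manifold ContDiff

namespace Pool.Agent.Y485.HS

open Pool.Agent.W660.GY (NSS GY3)
open Pool.Agent.W660.GY.P3.PWLaux

/-- linear groups have no small subgroups -/
theorem nss_of_inj {B : Type} [Group B] [TopologicalSpace B] [IsTopologicalGroup B] {N : ℕ}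
    (ρ : B →* Matrix (Fin N) (Fin N) ℂ) (hρ : Continuous ρ) (hinj : Function.Injective ρ) :
    NSS B := by
  refine ⟨{x | nm (ρ x - 1) < 1 / 2}, ?_, ?_⟩
  · have ho : IsOpen {x : B | nm (ρ x - 1) < 1 / 2} :=
      isOpen_lt (nm_cont _ (hρ.sub continuous_const)) continuous_const
    refine ho.mem_nhds ?_
    show nm (ρ 1 - 1) < 1 / 2
    rw [map_one, sub_self]
    simp [nm]
  · intro S hS
    rw [eq_bot_iff]
    intro x hx
    have key : ∀ k : ℕ, ∀ y ∈ S, nm (ρ y - 1) ≤ (3 / 4) ^ k * (1 / 2) := by
      intro k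
      induction k with
      | zero =>
        intro y hy
        have h := hS hy
        have h' : nm (ρ y - 1) < 1 / 2 := h
        simpa using h'.le
      | succ k ih =>
        intro y hy
        have e : (2 : ℂ) • (ρ y - 1) = (ρ (y * y) - 1) - (ρ y - 1) * (ρ y - 1) := by
          rw [map_mul, two_smul]
          noncomm_ring
        have h1 := nm_sub (ρ (y * y) - 1) ((ρ y - 1) * (ρ y - 1))
        rw [← e, nm_two] at h1
        have h2 := nm_mul (ρ y - 1) (ρ y - 1)
        have h3 := ih (y * y) (S.mul_mem hy hy)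
        have h4 := ih y hy
        have h5 : nm (ρ y - 1) < 1 / 2 := hS hy
        have h6 : nm (ρ y - 1) * nm (ρ y - 1) ≤ (1 / 2) * ((3 / 4) ^ k * (1 / 2)) :=
          mul_le_mul h5.le h4 (nm_nonneg _) (by norm_num)
        rw [pow_succ]
        linarith
    have h0 : nm (ρ x - 1) ≤ 0 := by
      by_contra hcon
      push Not at hcon
      obtain ⟨k, hk⟩ := exists_pow_lt_of_lt_one hcon (show (3 / 4 : ℝ) < 1 by norm_num)
      have := key k x hx
      linarith
    have h1 : ρ x = 1 := sub_eq_zero.1 (nm_eq_zero h0)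
    rw [Subgroup.mem_bot]
    exact hinj (by rw [h1, map_one])

/-- all profinite groups mapping continuously and injectively into `G` are discrete -/
def PropZ (G : Type) [Group G] [TopologicalSpace G] : Prop :=
  ∀ (S : Type) [Group S] [TopologicalSpace S] [IsTopologicalGroup S] [CompactSpace S] [T2Space S]
    [TotallyDisconnectedSpace S] (i : S →* G), Continuous i → Function.Injective i →
    DiscreteTopology S

/-- compact groups with property `Z` have no small subgroups -/
theorem nss_compact {N : Type} [Group N] [TopologicalSpace N] [IsTopologicalGroup N]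
    [CompactSpace N] [T2Space N] (hZ : PropZ N) : NSS N := by
  have hbdd : ∀ f : N → ℝ, Continuous f → ∃ M : ℝ, ∀ x, |f x| ≤ M := by
    intro f hf
    obtain ⟨M, hM⟩ := (isCompact_range hf.abs).bddAbove
    exact ⟨M, fun x => hM ⟨x, rfl⟩⟩
  have hmin : Pool.Agent.H241R3.Nil.Minimal N := by
    refine H658.ZM.minimal_of N ?_
    intro H _ _ _ _ f hf
    exact (Continuous.homeoOfEquivCompactToT2 (f := f.toEquiv) hf).symm.continuous
  have hbad : ¬ H658.ZM.Bad N := by
    rintro ⟨S, hSc, hSb, -, hSd⟩
    have : CompactSpace S := isCompact_iff_compactSpace.1 hSc.isCompact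
    have : TotallyDisconnectedSpace S := by
      have : TotallySeparatedSpace S := totallySeparatedSpace_of_t0_of_basis_clopen hSb
      infer_instance
    exact hSd (hZ S S.subtype continuous_subtype_val S.subtype_injective)
  obtain ⟨-, n, ρ, hρ⟩ := H658.ZM.lie_of_pseudocompact N hbdd hmin hbad
  let ρ' : N →* Matrix (Fin n) (Fin n) ℂ := (Submonoid.subtype _).comp ρ
  exact nss_of_inj ρ' (continuous_subtype_val.comp hρ.continuous)
    (fun a b hab => hρ.injective (Subtype.ext hab))

/-- extensions of groups without small subgroups -/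
theorem nss_ext {H : Type} [Group H] [TopologicalSpace H] [IsTopologicalGroup H] (N : Subgroup H)
    [N.Normal] (hN : NSS N) (hQ : NSS (H ⧸ N)) : NSS H := by
  obtain ⟨U, hU, hUs⟩ := hN
  obtain ⟨V, hV, hVs⟩ := hQ
  rw [nhds_subtype_eq_comap] at hU
  obtain ⟨U', hU', hUU⟩ := hU
  refine ⟨U' ∩ (QuotientGroup.mk : H → H ⧸ N) ⁻¹' V, inter_mem hU' ?_, ?_⟩
  · have hc : ContinuousAt (QuotientGroup.mk : H → H ⧸ N) 1 :=
      QuotientGroup.continuous_mk.continuousAt
    exact hc hV
  · intro S hS
    have h1 : S.map (QuotientGroup.mk' N) = ⊥ := by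
      apply hVs
      rintro _ ⟨s, hs, rfl⟩
      exact (hS hs).2
    have h2 : S ≤ N := by
      intro s hs
      have : QuotientGroup.mk' N s ∈ S.map (QuotientGroup.mk' N) := ⟨s, hs, rfl⟩
      rw [h1, Subgroup.mem_bot] at this
      exact (QuotientGroup.eq_one_iff s).1 this
    have h3 : S.subgroupOf N = ⊥ := by
      apply hUs
      intro x hx
      exact hUU (hS (Subgroup.mem_subgroupOf.1 hx)).1
    rw [eq_bot_iff]
    intro s hs
    have : (⟨s, h2 hs⟩ : N) ∈ S.subgroupOf N := Subgroup.mem_subgroupOf.2 hs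
    rw [h3, Subgroup.mem_bot] at this
    rw [Subgroup.mem_bot]
    exact congrArg Subtype.val this

/-- open subgroups -/
theorem nss_open {G : Type} [Group G] [TopologicalSpace G] [IsTopologicalGroup G] (H : Subgroup G)
    (hH : IsOpen (H : Set G)) (h : NSS H) : NSS G := by
  obtain ⟨U, hU, hUs⟩ := h
  rw [nhds_subtype_eq_comap] at hU
  obtain ⟨U', hU', hUU⟩ := hU
  refine ⟨U' ∩ (H : Set G), inter_mem hU' (hH.mem_nhds H.one_mem), ?_⟩
  intro S hS
  have h3 : S.subgroupOf H = ⊥ := by
    apply hUs
    intro x hx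
    exact hUU (hS (Subgroup.mem_subgroupOf.1 hx)).1
  rw [eq_bot_iff]
  intro s hs
  have : (⟨s, (hS hs).2⟩ : H) ∈ S.subgroupOf H := Subgroup.mem_subgroupOf.2 hs
  rw [h3, Subgroup.mem_bot] at this
  rw [Subgroup.mem_bot]
  exact congrArg Subtype.val this

/-- locally compact groups with property `Z` near the identity have no small subgroups -/
theorem nss_of_Z {G : Type} [Group G] [TopologicalSpace G] [IsTopologicalGroup G] [T2Space G]
    [LocallyCompactSpace G] (V : Set G) (hV : V ∈ 𝓝 (1 : G))
    (hZ : ∀ (S : Type) [Group S] [TopologicalSpace S] [IsTopologicalGroup S] [CompactSpace S]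
      [T2Space S] [TotallyDisconnectedSpace S] (i : S →* G), Continuous i → Function.Injective i →
      (∀ s, i s ∈ V) → DiscreteTopology S) : NSS G := by
  obtain ⟨H, hH, hHN⟩ := Pool.Agent.W660.GY.gy3 G
  refine nss_open H hH ?_
  have hV' : (Subtype.val : H → G) ⁻¹' V ∈ 𝓝 (1 : H) :=
    continuous_subtype_val.continuousAt.preimage_mem_nhds (by simpa using hV)
  obtain ⟨N, hNn, hNc, hNV, hQ⟩ := hHN _ hV'
  have : CompactSpace N := isCompact_iff_compactSpace.1 hNc
  refine nss_ext N (nss_compact ?_) hQ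
  intro S _ _ _ _ _ _ i hi hinj
  refine hZ S (H.subtype.comp (N.subtype.comp i)) ?_ ?_ ?_
  · exact continuous_subtype_val.comp (continuous_subtype_val.comp hi)
  · intro a b hab
    exact hinj (Subtype.ext (Subtype.ext hab))
  · intro s
    exact hNV (i s).2

/-- The Hilbert-Smith conjecture for Sobolev homeomorphisms: no small subgroups. -/
theorem nss_main (hLOC : S_LOC) (hTR : S_TR) (hST : S_START) (hBA : S_BAIRE) (hSY : S_SYL)
    (hCO : S_COORD)
    {n : ℕ} (hn : 2 ≤ n) {X : Type} [MetricSpace X] [MeasurableSpace X] [BorelSpace X]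
    {G : Type} [Group G] [TopologicalSpace G] [IsTopologicalGroup G] [LocallyCompactSpace G]
    [MulAction G X] [ContinuousSMul G X] [FaithfulSMul G X]
    (hdense : Dense (Reg n X)) (hconn : IsPreconnected (Reg n X))
    (hsob : ∀ᶠ g in 𝓝 (1 : G), Sob n (fun x : X => g • x)) : T2Space G ∧ NSS G := by
  have hT2 : T2Space G := by
    refine ⟨fun g h hgh => ?_⟩
    obtain ⟨x, hx⟩ : ∃ x : X, g • x ≠ h • x := by
      by_contra hall
      push Not at hall
      exact hgh (eq_of_smul_eq_smul hall)
    obtain ⟨u, v, hu, hv, hgu, hhv, huv⟩ := t2_separation hx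
    have hc : Continuous (fun g : G => g • x) := by fun_prop
    exact ⟨_, _, hu.preimage hc, hv.preimage hc, hgu, hhv, huv.preimage _⟩
  refine ⟨hT2, nss_of_Z _ hsob ?_⟩
  intro S _ _ _ _ _ _ i hi hinj hiV
  let _ : MulAction S X := MulAction.compHom X i
  have _ : ContinuousSMul S X := ⟨by
    have h : Continuous (fun q : S × X => i q.1 • q.2) := by fun_prop
    exact h⟩
  obtain ⟨K, hKo, hKt⟩ := profinite hLOC hTR hST hBA hSY hCO hn (H := S) (X := X) hdense hconn
    (fun h => hiV h)
  have hbot : K = ⊥ := by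
    rw [eq_bot_iff]
    intro k hk
    rw [Subgroup.mem_bot]
    apply hinj
    refine eq_of_smul_eq_smul (α := X) fun x => ?_
    rw [map_one, one_smul]
    exact hKt k hk x
  rw [hbot] at hKo
  refine discreteTopology_of_isOpen_singleton_one ?_
  convert hKo using 1
  ext x
  simp

end Pool.Agent.Y485.HS
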