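import Pool.Agent.Y485.HS.Glob

/-!
Project HS: the final theorem.
-/

set_option autoImplicit false

open MeasureTheory Set Metric Filter Topology
open scoped ENNReal NNReal

namespace Pool.Agent.Y485.HS

/-- A profinite group acting by Sobolev homeomorphisms has an open subgroup which acts
trivially. -/
theorem profinite (hLOC : S_LOC) (hTR : S_TR) (hST : S_START) (hBA : S_BAIRE) (hSY : S_SYL)
    (hCO : S_COORD)
    {n : ℕ} (hn : 2 ≤ n) {X : Type} [MetricSpace X] [MeasurableSpace X] [BorelSpace X]
    {H : Type} [Group H] [TopologicalSpace H] [IsTopologicalGroup H] [CompactSpace H] [T2Space H]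
    [TotallyDisconnectedSpace H] [MulAction H X] [ContinuousSMul H X]
    (hdense : Dense (Reg n X)) (hconn : IsPreconnected (Reg n X))
    (hsob : ∀ h : H, Sob n (fun x : X => h • x)) :
    ∃ K : Subgroup H, IsOpen (K : Set H) ∧ ∀ k ∈ K, ∀ x : X, k • x = x := by
  rcases isEmpty_or_nonempty X with hX | hX
  · exact ⟨⊤, isOpen_univ, fun k _ x => (hX.false x).elim⟩
  obtain ⟨x0, hx0⟩ := hdense.nonempty
  obtain ⟨K, hKo, hKt⟩ := locTriv hLOC hTR hST hBA hSY hn hsob hx0
  refine ⟨K, hKo, ?_⟩
  have hKc : IsClosed (K : Set H) := Subgroup.isClosed_of_isOpen K hKo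
  have : CompactSpace K := isCompact_iff_compactSpace.1 hKc.isCompact
  let D : Subgroup K :=
    { carrier := {k | ∀ x : X, (k : H) • x = x}
      mul_mem' := by
        intro a b ha hb x
        rw [Subgroup.coe_mul, mul_smul, hb x, ha x]
      one_mem' := by
        intro x
        simp
      inv_mem' := by
        intro a ha x
        rw [Subgroup.coe_inv, inv_smul_eq_iff, ha x] }
  have hDc : IsClosed (D : Set K) := by
    have h1 : (D : Set K) = ⋂ x : X, {k : K | (k : H) • x = x} := by
      ext k
      simp only [mem_iInter]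
      rfl
    rw [h1]
    refine isClosed_iInter fun x => ?_
    have hc : Continuous (fun k : K => (k : H) • x) := by fun_prop
    exact isClosed_eq hc continuous_const
  have hD : D = ⊤ := by
    refine hSY K D hDc ?_
    intro p hp P hPc hPp k hk
    have : CompactSpace P := isCompact_iff_compactSpace.1 hPc.isCompact
    -- the interior of the fixed set of `P`
    let Z : Set X := {x | ∀ᶠ y in 𝓝 x, ∀ q : P, q • y = y}
    have hZo : IsOpen Z := by
      rw [isOpen_iff_mem_nhds]
      intro x hx
      exact eventually_eventually_nhds.2 hx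
    have hZx : x0 ∈ Z := by
      filter_upwards [hKt] with y hy q
      exact hy ((q : K) : H) (q : K).2
    have hsub : Reg n X ⊆ Z := by
      refine hconn.subset_of_closure_inter_subset hZo ⟨x0, hx0, hZx⟩ ?_
      rintro x ⟨hxZ, hxR⟩
      obtain ⟨K', hK'o, hK't⟩ := locTriv hLOC hTR hST hBA hSY hn hsob hxR
      let K'' : Subgroup P := K'.comap (K.subtype.comp P.subtype)
      have hK''o : IsOpen (K'' : Set P) := by
        refine hK'o.preimage ?_
        exact continuous_subtype_val.comp continuous_subtype_val
      refine newman hLOC hTR hCO hn hp hPp (fun h : P => hsob ((h : K) : H)) hxR K'' hK''o ?_ ?_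
      · filter_upwards [hK't] with y hy q hq
        exact hy _ hq
      · intro V hV
        obtain ⟨a, haV, haZ⟩ := mem_closure_iff_nhds.1 hxZ V hV
        exact ⟨a, haV, haZ⟩
    intro x
    have hcl : IsClosed {x : X | (k : H) • x = x} :=
      isClosed_eq (continuous_const_smul (k : H)) continuous_id
    have h2 : Reg n X ⊆ {x : X | (k : H) • x = x} := by
      intro y hy
      exact (hsub hy).self_of_nhds ⟨k, hk⟩
    have h3 := hcl.closure_subset_iff.2 h2
    rw [hdense.closure_eq] at h3
    exact h3 (mem_univ x)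
  intro k hk x
  have h1 : (⟨k, hk⟩ : K) ∈ D := by rw [hD]; exact Subgroup.mem_top _
  exact h1 x

/-- The Hilbert-Smith conjecture for totally disconnected groups of Sobolev homeomorphisms. -/
theorem main (hLOC : S_LOC) (hTR : S_TR) (hST : S_START) (hBA : S_BAIRE) (hSY : S_SYL)
    (hCO : S_COORD) (hVD : S_VD)
    {n : ℕ} (hn : 2 ≤ n) {X : Type} [MetricSpace X] [MeasurableSpace X] [BorelSpace X]
    {G : Type} [Group G] [TopologicalSpace G] [IsTopologicalGroup G] [LocallyCompactSpace G]
    [TotallyDisconnectedSpace G] [MulAction G X] [ContinuousSMul G X] [FaithfulSMul G X]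
    (hdense : Dense (Reg n X)) (hconn : IsPreconnected (Reg n X))
    (hsob : ∀ g : G, Sob n (fun x : X => g • x)) : DiscreteTopology G := by
  have hT2 : T2Space G := by
    refine ⟨fun g h hgh => ?_⟩
    obtain ⟨x, hx⟩ : ∃ x : X, g • x ≠ h • x := by
      by_contra hall
      push Not at hall
      exact hgh (eq_of_smul_eq_smul hall)
    obtain ⟨u, v, hu, hv, hgu, hhv, huv⟩ := t2_separation hx
    have hc : Continuous (fun g : G => g • x) := by fun_prop
    exact ⟨_, _, hu.preimage hc, hv.preimage hc, hgu, hhv, huv.preimage _⟩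
  obtain ⟨K, hKo, hKc⟩ := hVD G
  have : CompactSpace K := isCompact_iff_compactSpace.1 hKc
  obtain ⟨K', hK'o, hK't⟩ := profinite hLOC hTR hST hBA hSY hCO hn (H := K) (X := X) hdense hconn
    (fun h => hsob (h : G))
  have hbot : K' = ⊥ := by
    rw [eq_bot_iff]
    intro k hk
    rw [Subgroup.mem_bot]
    apply Subtype.ext
    refine eq_of_smul_eq_smul (α := X) fun x => ?_
    rw [Subgroup.coe_one, one_smul]
    exact hK't k hk x
  have h1 : IsOpen ({1} : Set G) := by
    have h2 := hKo.isOpenEmbedding_subtypeVal.isOpenMap _ hK'o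
    rw [hbot] at h2
    convert h2 using 1
    ext g
    simp
  exact discreteTopology_of_isOpen_singleton_one h1

end Pool.Agent.Y485.HS
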