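import Mathlib

/-!
Project HS: the Hilbert-Smith conjecture for Sobolev homeomorphisms (definitions and exact statements
of the jobs).
-/

set_option autoImplicit false

open MeasureTheory Set Metric Filter Topology
open scoped ENNReal NNReal

namespace Pool.Agent.Y485.HS

/-- Euclidean space. -/
abbrev E (n : ℕ) := EuclideanSpace ℝ (Fin n)

/-- `g` is a Hajlasz gradient of `u` on `B`. -/
def Haj {n : ℕ} (B : Set (E n)) (u : E n → E n) (g : E n → ℝ≥0∞) : Prop :=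
  ∀ x ∈ B, ∀ y ∈ B, edist (u x) (u y) ≤ edist x y * (g x + g y)

/-- The closed ball of radius four around the origin. -/
def BB (n : ℕ) : Set (E n) := closedBall 0 4

/-- `u` is of class `M^{1,n}` on the ball `BB n`, with `n`-energy at most `m`. -/
def SobOn {n : ℕ} (m : ℕ) (u : E n → E n) : Prop :=
  ∃ g : E n → ℝ≥0∞, Measurable g ∧ Haj (BB n) u g ∧ ∫⁻ x in BB n, g x ^ n ≤ m

/-- `L` is the derivative of `F` at `x` along all sublevel sets of the gradient `g`. -/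
def ADer {n : ℕ} (g : E n → ℝ≥0∞) (F : E n → E n) (x : E n) (L : E n →L[ℝ] E n) : Prop :=
  x ∈ BB n ∧ g x < ∞ ∧
    ∀ m : ℕ, g x ≤ m → HasFDerivWithinAt F L {z | z ∈ BB n ∧ g z ≤ m} x

/-- The standing assumptions on a map of the ball close to the identity. -/
structure Near {n : ℕ} (F : E n → E n) (g : E n → ℝ≥0∞) : Prop where
  cont : ContinuousOn F (BB n)
  disp : ∀ x ∈ BB n, dist (F x) x ≤ 1 / 4
  meas : Measurable g
  haj : Haj (BB n) F g
  fin : ∫⁻ x in BB n, g x ^ n < ∞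

/-- A derivative of `F` along the sublevel sets of `g`, almost everywhere. -/
structure Der {n : ℕ} (F : E n → E n) (g : E n → ℝ≥0∞) (D : E n → (E n →L[ℝ] E n)) : Prop where
  meas : Measurable D
  der : ∀ᵐ x ∂(volume.restrict (BB n)), ADer g F x (D x)
  bound : ∃ C : ℝ≥0, ∀ᵐ x ∂(volume.restrict (BB n)), ‖D x‖ₑ ≤ C * (g x + 1)

/-! ### Analysis in the ball -/

/-- J1. Degree formula for Lipschitz maps which are the identity outside of a ball. -/
def S_DL : Prop :=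
  ∀ (n : ℕ) (F : E n → E n) (K : ℝ≥0) (R : ℝ), 0 < R → LipschitzWith K F →
    (∀ x, R ≤ ‖x‖ → F x = x) → ∀ φ : E n → ℝ, Continuous φ → HasCompactSupport φ →
      ∫ x, φ (F x) * (fderiv ℝ F x).det = ∫ x, φ x

/-- J2a. Uniqueness of derivatives at almost every point of a measurable set. -/
def S_UD : Prop :=
  ∀ (n : ℕ) (S : Set (E n)), MeasurableSet S →
    ∀ᵐ x ∂(volume.restrict S), UniqueDiffWithinAt ℝ S x

/-- J2b. Existence of the derivative. -/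
def S_DER : Prop :=
  ∀ (n : ℕ), 1 ≤ n → ∀ (F : E n → E n) (g : E n → ℝ≥0∞), Near F g → ∃ D, Der F g D

/-- J3. Area formula with signs. -/
def S_AREA : Prop :=
  ∀ (n : ℕ) (F : E n → E n) (D : E n → (E n →L[ℝ] E n)) (A : ℕ → Set (E n)),
    (∀ m, MeasurableSet (A m)) → Monotone A → Measurable D →
    (∀ m, ∀ x ∈ A m, HasFDerivWithinAt F (D x) (A m) x) →
    ∫⁻ x in ⋃ m, A m, ‖(D x).det‖ₑ < ∞ →
    ∃ d : E n → ℤ, Integrable (fun y => (d y : ℝ)) ∧
      (∀ φ : E n → ℝ, Continuous φ → HasCompactSupport φ →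
        ∫ x in ⋃ m, A m, φ (F x) * (D x).det = ∫ y, φ y * (d y : ℝ)) ∧
      (∀ N : Set (E n), volume N = 0 → ∀ᵐ y, ∃ P : Finset (E n),
        (∀ x, x ∈ P ↔ (x ∈ ⋃ m, A m) ∧ x ∉ N ∧ (D x).det ≠ 0 ∧ F x = y) ∧
        d y = ∑ x ∈ P, ((SignType.sign (D x).det : SignType) : ℤ))

/-- J4. The degree formula for Sobolev maps near the identity. -/
def S_LIM : Prop :=
  ∀ (n : ℕ), 1 ≤ n → ∀ (F : E n → E n) (g : E n → ℝ≥0∞) (D : E n → (E n →L[ℝ] E n)),
    Near F g → Der F g D →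
      ∫⁻ x in BB n, ‖(D x).det‖ₑ < ∞ ∧
      ∀ φ : E n → ℝ, Continuous φ → (∀ x, 2 ≤ ‖x‖ → φ x = 0) →
        ∫ x in ball 0 3, φ (F x) * (D x).det = ∫ x, φ x

/-- J5. The signed number of preimages of almost every point is one. -/
def S_DS : Prop :=
  ∀ (n : ℕ), 1 ≤ n → ∀ (F : E n → E n) (g : E n → ℝ≥0∞), Near F g →
    ∃ D : E n → (E n →L[ℝ] E n), Der F g D ∧
      ∀ N : Set (E n), volume N = 0 → ∀ᵐ y ∂(volume.restrict (ball 0 2)), ∃ P : Finset (E n),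
        (∀ x, x ∈ P ↔ x ∈ ball 0 3 ∧ x ∉ N ∧ ADer g F x (D x) ∧ (D x).det ≠ 0 ∧ F x = y) ∧
        ∑ x ∈ P, ((SignType.sign (D x).det : SignType) : ℤ) = 1

/-- J6. Uniform limits of maps with bounded energy have bounded energy. -/
def S_CL : Prop :=
  ∀ (n : ℕ), 2 ≤ n → ∀ (m : ℕ) (u : ℕ → E n → E n) (v : E n → E n),
    (∀ i, SobOn m (u i)) → TendstoUniformlyOn u v atTop (BB n) → SobOn m v

/-- J7. Averages of maps with bounded energy have bounded energy. -/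
def S_AVG : Prop :=
  ∀ (n : ℕ), 2 ≤ n → ∀ (Ω : Type) [TopologicalSpace Ω] [CompactSpace Ω] [MeasurableSpace Ω]
    [BorelSpace Ω] (μ : Measure Ω) [IsProbabilityMeasure μ] (T : Ω → E n → E n),
    ContinuousOn (fun q : Ω × E n => T q.1 q.2) (univ ×ˢ BB n) →
    ∀ m : ℕ, (∀ ω, SobOn m (T ω)) →
      SobOn m (fun x => ∫ ω, T ω x ∂μ) ∧ ContinuousOn (fun x => ∫ ω, T ω x ∂μ) (BB n)

/-- J8. Baire category: uniform bounds on a coset of an open subgroup. -/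
def S_BAIRE : Prop :=
  ∀ (n : ℕ), 2 ≤ n → ∀ (H : Type) [Group H] [TopologicalSpace H] [IsTopologicalGroup H]
    [CompactSpace H] [T2Space H] [TotallyDisconnectedSpace H] (T : H → E n → E n),
    ContinuousOn (fun q : H × E n => T q.1 q.2) (univ ×ˢ BB n) →
    (∀ h, ∃ m : ℕ, SobOn m (T h)) →
      ∃ (h0 : H) (K : Subgroup H) (m : ℕ), IsOpen (K : Set H) ∧ ∀ k ∈ K, SobOn m (T (h0 * k))

/-! ### Local actions -/

/-- A group of maps of the ball which move points by at most `1 / 4`. -/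
structure LocAct (n : ℕ) (H : Type) [Group H] [TopologicalSpace H] (T : H → E n → E n) :
    Prop where
  cont : ContinuousOn (fun q : H × E n => T q.1 q.2) (univ ×ˢ BB n)
  one : ∀ x ∈ BB n, T 1 x = x
  mul : ∀ h k, ∀ x ∈ BB n, T k x ∈ BB n → T (h * k) x = T h (T k x)
  disp : ∀ h, ∀ x ∈ BB n, dist (T h x) x ≤ 1 / 4

/-- J9. Chain rule and null sets. -/
def S_CHAIN : Prop :=
  ∀ (n : ℕ), 1 ≤ n → ∀ (H : Type) [Group H] [TopologicalSpace H] (T : H → E n → E n),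
    LocAct n H T → (∀ h, ∃ m : ℕ, SobOn m (T h)) →
    ∀ (F : E n → E n) (g : E n → ℝ≥0∞) (D : E n → (E n →L[ℝ] E n)), Near F g → Der F g D →
    ∀ k : H, (∀ x ∈ BB n, T k x ∈ BB n → F (T k x) = F x) →
      (∀ N : Set (E n), volume N = 0 → volume {x | x ∈ ball 0 2 ∧ T k x ∈ N} = 0) ∧
      volume {x | x ∈ ball 0 2 ∧ ADer g F x (D x) ∧ (D x).det ≠ 0 ∧
        ¬ (ADer g F (T k x) (D (T k x)) ∧ 0 < (D x).det * (D (T k x)).det)} = 0

/-- A compact group all of whose open subgroups have index a power of `p`. -/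
def ProP (p : ℕ) (K : Type) [Group K] [TopologicalSpace K] : Prop :=
  ∀ U : Subgroup K, IsOpen (U : Set K) → ∃ j : ℕ, U.index = p ^ j

/-- J10. Counting orbits modulo `p`. -/
def S_COUNT : Prop :=
  ∀ (p : ℕ), p.Prime → ∀ (n : ℕ) (K : Type) [Group K] [TopologicalSpace K]
    [IsTopologicalGroup K] [CompactSpace K] (T : K → E n → E n), ProP p K → LocAct n K T →
    ∀ (Γ : Set K), (∀ k, ∀ ε : ℝ, 0 < ε → ∃ γ ∈ Γ, ∀ x ∈ BB n, dist (T γ x) (T k x) < ε) →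
    ∀ (P : Finset (E n)) (s : E n → ℤ), (∀ x ∈ P, ‖x‖ ≤ 3) →
      (∀ γ ∈ Γ, ∀ x ∈ P, T γ x ∈ P ∧ s (T γ x) = s x) →
      (∀ x ∈ P, ∃ k, T k x ≠ x) → (p : ℤ) ∣ ∑ x ∈ P, s x

/-- J11. A countable set of group elements which is dense for uniform convergence on the ball. -/
def S_SEP : Prop :=
  ∀ (n : ℕ) (K : Type) [Group K] [TopologicalSpace K] [IsTopologicalGroup K] [CompactSpace K]
    (T : K → E n → E n), ContinuousOn (fun q : K × E n => T q.1 q.2) (univ ×ˢ BB n) →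
    ∃ Γ : Subgroup K, (Γ : Set K).Countable ∧
      ∀ k, ∀ ε : ℝ, 0 < ε → ∃ γ ∈ Γ, ∀ x ∈ BB n, dist (T γ x) (T k x) < ε

/-- J12. The local theorem. -/
def S_LOC : Prop :=
  ∀ (p : ℕ), p.Prime → ∀ (n : ℕ), 2 ≤ n → ∀ (H : Type) [Group H] [TopologicalSpace H]
    [IsTopologicalGroup H] [CompactSpace H] [T2Space H] (T : H → E n → E n), LocAct n H T →
    (∀ h, ∃ m : ℕ, SobOn m (T h)) →
    ∀ (h0 : H) (K : Subgroup H) (m : ℕ), IsClosed (K : Set H) → ProP p K →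
      (∀ k ∈ K, SobOn m (T (h0 * k))) → ∀ k ∈ K, ∀ x ∈ ball 0 (1 / 2), T k x = x

/-! ### Metric spaces -/

section
variable {X : Type} [MetricSpace X]

/-- A bi-Lipschitz chart. -/
def BiLip (n : ℕ) (U : Set X) (ψ : X → E n) (L : ℝ) : Prop :=
  IsOpen U ∧ IsOpen (ψ '' U) ∧
    ∀ a ∈ U, ∀ b ∈ U, dist (ψ a) (ψ b) ≤ L * dist a b ∧ dist a b ≤ L * dist (ψ a) (ψ b)

/-- The points with a neighbourhood which is bi-Lipschitz equivalent to an open subset of
Euclidean `n`-space. -/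
def Reg (n : ℕ) (X : Type) [MetricSpace X] : Set X :=
  {x | ∃ (U : Set X) (ψ : X → E n) (L : ℝ), x ∈ U ∧ BiLip n U ψ L}

/-- The Hajlasz-Sobolev class `M^{1,n}_loc` on the regular part. -/
def Sob (n : ℕ) {X : Type} [MetricSpace X] [MeasurableSpace X] [BorelSpace X] (f : X → X) :
    Prop :=
  ∀ C ⊆ Reg n X, IsCompact C → ∃ g : X → ℝ≥0∞, Measurable g ∧
    (∀ a ∈ C, ∀ b ∈ C, edist (f a) (f b) ≤ edist a b * (g a + g b)) ∧
    ∫⁻ a in C, g a ^ n ∂(Measure.hausdorffMeasure (n : ℝ)) < ∞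

end

/-- J13. Transfer of an action to a chart. -/
def S_TR : Prop :=
  ∀ (n : ℕ), 1 ≤ n → ∀ (X : Type) [MetricSpace X] [MeasurableSpace X] [BorelSpace X] (H : Type)
    [Group H] [TopologicalSpace H] [MulAction H X] [ContinuousSMul H X]
    (U : Set X) (ψ : X → E n) (L : ℝ), BiLip n U ψ L → closedBall 0 4 ⊆ ψ '' U →
    (∀ h : H, ∀ x ∈ U, ψ x ∈ closedBall 0 4 → h • x ∈ U ∧ dist (ψ (h • x)) (ψ x) ≤ 1 / 4) →
    (∀ h : H, Sob n (fun x : X => h • x)) →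
    ∃ T : H → E n → E n, LocAct n H T ∧ (∀ h, ∃ m : ℕ, SobOn m (T h)) ∧
      ∀ h : H, ∀ x ∈ U, ψ x ∈ closedBall 0 4 → T h (ψ x) = ψ (h • x)

/-- J14. A chart and an open subgroup which moves points of the chart by little. -/
def S_START : Prop :=
  ∀ (n : ℕ) (X : Type) [MetricSpace X] (H : Type) [Group H] [TopologicalSpace H]
    [IsTopologicalGroup H] [CompactSpace H] [T2Space H] [TotallyDisconnectedSpace H]
    [MulAction H X] [ContinuousSMul H X] (x0 : X), x0 ∈ Reg n X →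
    ∃ (U : Set X) (ψ : X → E n) (L : ℝ) (H0 : Subgroup H), BiLip n U ψ L ∧ x0 ∈ U ∧
      ψ x0 = 0 ∧ closedBall 0 4 ⊆ ψ '' U ∧ IsOpen (H0 : Set H) ∧
      ∀ h ∈ H0, ∀ x ∈ U, ψ x ∈ closedBall 0 4 → h • x ∈ U ∧ dist (ψ (h • x)) (ψ x) ≤ 1 / 4

/-- J15. Newman's theorem, coordinates: next to an open set of fixed points there are coordinates in
which the group moves points by little compared with the size of the domain. -/
def S_COORD : Prop :=
  ∀ (n : ℕ), 1 ≤ n → ∀ (K : Type) [Group K] [TopologicalSpace K] [IsTopologicalGroup K]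
    [CompactSpace K] (T : K → E n → E n) (z : E n) (ρ : ℝ), 0 < ρ →
    ContinuousOn (fun q : K × E n => T q.1 q.2) (univ ×ˢ closedBall z ρ) →
    (∀ x ∈ closedBall z ρ, T 1 x = x) →
    (∀ h k, ∀ x ∈ closedBall z ρ, T k x ∈ closedBall z ρ → T (h * k) x = T h (T k x)) →
    ∀ a ∈ ball z ρ, ∀ x1 ∈ ball z ρ, (∀ᶠ x in 𝓝 a, ∀ k, T k x = x) → (∃ k, T k x1 ≠ x1) →
    ∃ (w : E n) (O : Set (E n)) (Φ : E n → E n) (L : ℝ), (∃ k, T k w ≠ w) ∧ w ∈ O ∧
      O ⊆ ball z ρ ∧ IsOpen O ∧ IsOpen (Φ '' O) ∧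
      (∀ x ∈ O, ∀ y ∈ O, dist (Φ x) (Φ y) ≤ L * dist x y ∧ dist x y ≤ L * dist (Φ x) (Φ y)) ∧
      Φ w = 0 ∧ closedBall 0 4 ⊆ Φ '' O ∧
      ∀ x ∈ O, Φ x ∈ closedBall 0 4 → ∀ k, T k x ∈ O ∧ dist (Φ (T k x)) (Φ x) ≤ 1 / 4

/-- J16. A closed subgroup of a profinite group which contains all closed pro-`p` subgroups, for all
primes `p`, is everything. -/
def S_SYL : Prop :=
  ∀ (H : Type) [Group H] [TopologicalSpace H] [IsTopologicalGroup H] [CompactSpace H]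
    [T2Space H] [TotallyDisconnectedSpace H] (D : Subgroup H), IsClosed (D : Set H) →
    (∀ p : ℕ, p.Prime → ∀ P : Subgroup H, IsClosed (P : Set H) → ProP p P → P ≤ D) → D = ⊤

/-- J17. A totally disconnected locally compact group has a compact open subgroup. -/
def S_VD : Prop :=
  ∀ (G : Type) [Group G] [TopologicalSpace G] [IsTopologicalGroup G] [LocallyCompactSpace G]
    [TotallyDisconnectedSpace G] [T2Space G],
    ∃ K : Subgroup G, IsOpen (K : Set G) ∧ IsCompact (K : Set G)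

end Pool.Agent.Y485.HS
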